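import Pool.Agent.helper91.HZ.Spec

/-! # Project HZ (MP_2e0e07_nt), row DER -/

set_option autoImplicit false

namespace Pool.Agent.HZ

open Matrix Polynomial Pool.Agent.GO Pool.Agent.AR Pool.Agent.RG MeasureTheory NumberField

/-- a linear map to the coordinate space of dimension `finrank L`, injective on `L` -/
theorem DER_theta {k m : Type} [Field k] [Fintype m] [DecidableEq m]
    (L : Submodule k (Matrix m m k)) :
    ∃ θ : Matrix m m k →ₗ[k] (Fin (Module.finrank k L) → k), ∀ x ∈ L, θ x = 0 → x = 0 := by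
  obtain ⟨g, hg⟩ := LinearMap.exists_leftInverse_of_injective L.subtype (Submodule.ker_subtype L)
  refine ⟨(Module.finBasis k L).equivFun.toLinearMap ∘ₗ g, fun x hx h0 => ?_⟩
  have h1 : g x = ⟨x, hx⟩ := by
    have := LinearMap.congr_fun hg ⟨x, hx⟩
    simpa using this
  have h2 : (Module.finBasis k L).equivFun (g x) = 0 := h0
  rw [LinearEquiv.map_eq_zero_iff, h1] at h2
  exact congrArg Subtype.val h2

theorem DER_lin {k m : Type} [Field k] [Fintype m] [DecidableEq m] {d : ℕ}
    (θ : Matrix m m k →ₗ[k] (Fin d → k)) (X : Matrix m m k) (l : Fin d) :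
    θ X l = ∑ a, ∑ b, θ (Matrix.single a b 1) l * X a b := by
  conv_lhs => rw [Matrix.matrix_eq_sum_single X]
  simp only [map_sum, Finset.sum_apply]
  refine Finset.sum_congr rfl fun a _ => Finset.sum_congr rfl fun b _ => ?_
  have h : Matrix.single a b (X a b) = X a b • Matrix.single a b (1 : k) := by
    rw [Matrix.smul_single, smul_eq_mul, mul_one]
  rw [h, map_smul, Pi.smul_apply, smul_eq_mul, mul_comm]

theorem DER (h1 : PSE_stmt) (h2 : PSD_stmt) : DER_stmt := by
  intro k m G _ _ _ _ _ V n N w hw L hL hLg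
  classical
  obtain ⟨θ, hθ⟩ := DER_theta L
  obtain ⟨Ψ, hΨ⟩ : ∃ Ψ : Matrix m m (MvPolynomial (Fin N) k), Ψ = psi n (fun l => V (w l)) := ⟨_, rfl⟩
  obtain ⟨D, hD⟩ : ∃ D : Fin N → Matrix m m (MvPolynomial (Fin N) k),
      D = fun i => Ψ.map (fun f => MvPolynomial.pderiv i f) := ⟨_, rfl⟩
  obtain ⟨M, hM⟩ : ∃ M : Fin N → Matrix m m (MvPolynomial (Fin N) k),
      M = fun i => D i * Ψ.adjugate := ⟨_, rfl⟩
  have hfac : ∀ i < n, ((i.factorial : ℕ) : k) ≠ 0 := fun i _ => by
    exact_mod_cast i.factorial_ne_zero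
  -- values at natural points
  have hval : ∀ t : Fin N → ℕ, Ψ.map (MvPolynomial.eval fun i => ((t i : ℕ) : k)) =
      V (List.ofFn fun l => w l ^ t l).prod := by
    intro t
    rw [hΨ, h1 n N (fun l => V (w l)) hfac hw t, map_list_prod, List.map_ofFn]
    congr 2
    funext l
    simp only [Function.comp, map_pow]
  have hMt : ∀ (t : Fin N → ℕ) (i : Fin N), (M i).map (MvPolynomial.eval fun i => ((t i : ℕ) : k)) ∈ L := by
    intro t i
    have e1 : (M i).map (MvPolynomial.eval fun i => ((t i : ℕ) : k)) =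
        Ψ.map (fun f => MvPolynomial.eval (fun l => ((t l : ℕ) : k)) (MvPolynomial.pderiv i f)) *
          (V (List.ofFn fun l => w l ^ t l).prod).adjugate := by
      rw [hM]
      simp only
      rw [Matrix.map_mul, hD]
      have e2 := RingHom.map_adjugate (MvPolynomial.eval fun i => ((t i : ℕ) : k)) Ψ
      rw [RingHom.mapMatrix_apply, RingHom.mapMatrix_apply, hval t] at e2
      rw [e2]
      rfl
    rw [e1]
    have e3 := h2 V n N w hw i t
    rw [← hΨ] at e3
    rw [e3, Matrix.mul_assoc, Matrix.mul_adjugate, Matrix.mul_smul, Matrix.mul_one]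
    refine L.smul_mem _ ?_
    exact hLg i _
  -- linear dependence
  obtain ⟨Θ, hΘ⟩ : ∃ Θ : Fin N → Fin (Module.finrank k L) → MvPolynomial (Fin N) k,
      Θ = fun i l => ∑ a, ∑ b, MvPolynomial.C (θ (Matrix.single a b 1) l) * M i a b := ⟨_, rfl⟩
  have hdep : ¬ LinearIndependent (MvPolynomial (Fin N) k) Θ := by
    intro hind
    have := hind.fintype_card_le_finrank
    rw [Fintype.card_fin, Module.finrank_fin_fun] at this
    omega
  obtain ⟨c, hc, i₀, hi₀⟩ := Fintype.not_linearIndependent_iff.1 hdep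
  refine ⟨c, fun h => hi₀ (by rw [h]; rfl), ?_⟩
  have hzero : ∀ (t : Fin N → ℕ) (a b : m),
      MvPolynomial.eval (fun i => ((t i : ℕ) : k)) (∑ i, c i * M i a b) = 0 := by
    intro t
    obtain ⟨X, hX⟩ : ∃ X : Matrix m m k, X = ∑ i, MvPolynomial.eval (fun i => ((t i : ℕ) : k)) (c i) •
        (M i).map (MvPolynomial.eval fun i => ((t i : ℕ) : k)) := ⟨_, rfl⟩
    have hXL : X ∈ L := by
      rw [hX]
      exact L.sum_mem fun i _ => L.smul_mem _ (hMt t i)
    have hXab : ∀ a b, X a b = MvPolynomial.eval (fun i => ((t i : ℕ) : k)) (∑ i, c i * M i a b) := by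
      intro a b
      rw [hX, Matrix.sum_apply, map_sum]
      refine Finset.sum_congr rfl fun i _ => ?_
      rw [Matrix.smul_apply, Matrix.map_apply, smul_eq_mul, map_mul]
    have hX0 : X = 0 := by
      refine hθ X hXL ?_
      funext l
      rw [DER_lin θ X l, Pi.zero_apply]
      have e4 := congrArg (MvPolynomial.eval (fun i => ((t i : ℕ) : k))) (congrFun hc l)
      rw [Finset.sum_apply, map_sum, Pi.zero_apply, map_zero] at e4
      rw [← e4]
      simp only [hXab, map_sum, map_mul, Pi.smul_apply, smul_eq_mul, hΘ, MvPolynomial.eval_C,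
        Finset.mul_sum]
      rw [Finset.sum_congr rfl fun a _ => Finset.sum_comm, Finset.sum_comm]
      refine Finset.sum_congr rfl fun i _ => Finset.sum_congr rfl fun a _ =>
        Finset.sum_congr rfl fun b _ => ?_
      ring
    intro a b
    rw [← hXab, hX0, Matrix.zero_apply]
  have hpoly : ∀ a b : m, ∑ i, c i * M i a b = 0 := by
    intro a b
    refine MvPolynomial.funext_set (fun _ => Set.range (Nat.cast : ℕ → k))
      (fun _ => Set.infinite_range_of_injective Nat.cast_injective) fun x hx => ?_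
    choose t ht using fun i => hx i (Set.mem_univ i)
    have hxt : x = fun i => ((t i : ℕ) : k) := by
      funext i
      exact (ht i).symm
    rw [hxt, map_zero]
    exact hzero t a b
  -- the determinant is not zero
  have hdet : Ψ.det ≠ 0 := by
    intro h0
    have e5 := RingHom.map_det (MvPolynomial.eval fun i : Fin N => (((fun _ => 0 : Fin N → ℕ) i : ℕ) : k)) Ψ
    rw [RingHom.mapMatrix_apply, hval, h0, map_zero] at e5
    have e6 : (List.ofFn fun l => w l ^ (fun _ => 0 : Fin N → ℕ) l).prod = 1 := by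
      refine List.prod_eq_one fun x hx => ?_
      obtain ⟨l, rfl⟩ := (List.mem_ofFn' _ _).1 hx
      simp
    rw [e6, map_one, Matrix.det_one] at e5
    exact zero_ne_one e5
  intro a b
  have hmat : ∑ i, c i • M i = 0 := by
    ext1 a b
    rw [Matrix.sum_apply, Matrix.zero_apply]
    exact hpoly a b
  have h3 : (∑ i, c i • M i) * Ψ = Ψ.det • ∑ i, c i • D i := by
    rw [Finset.sum_mul, Finset.smul_sum]
    refine Finset.sum_congr rfl fun i _ => ?_
    rw [hM]
    simp only
    rw [Matrix.smul_mul, Matrix.mul_assoc, Matrix.adjugate_mul, Matrix.mul_smul, Matrix.mul_one,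
      smul_comm]
  rw [hmat, Matrix.zero_mul] at h3
  have h4 := congrFun (congrFun h3.symm a) b
  rw [Matrix.smul_apply, Matrix.zero_apply, smul_eq_mul, Matrix.sum_apply] at h4
  rcases mul_eq_zero.1 h4 with h5 | h5
  · exact absurd h5 hdet
  · rw [← hΨ]
    rw [hD] at h5
    exact h5

end Pool.Agent.HZ
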